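import Pool.Agent.MP_776d16_ag.H79.Main

namespace Pool.Agent.Results.MP_776d16_ag.DltPair

open Pool.Agent.MP_776d16_ag.H55 Pool.Agent.MP_776d16_ag.H79

theorem result (n k : ℕ) (h2 : 2 ≤ k) (hk : k ≤ n) :
    ∃ (N : ℕ) (K : Type) (_ : Field K) (_ : Algebra ℂ K) (ξ : Fin (N + 1) → K)
      (D : Finset (ValuationSubring K)) (P : FanoPair n ξ D),
      D.card = k ∧ P.IsLC ∧ P.IsDlt ∧ ¬ LogRC (var ξ) (supp ξ D) := by
  classical
  obtain ⟨K, _, _, ξ, h⟩ := exists_gen n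
  obtain ⟨J, -, hJ⟩ := Finset.exists_subset_card_eq (s := (Finset.univ : Finset (Fin n)))
    (n := k) (by simpa using hk)
  have h1 : J.Nonempty := Finset.card_pos.1 (by omega)
  exact ⟨n, K, _, _, ξ, _, h.pair J h1, by rw [Finset.card_image_of_injective _ h.H_inj, hJ],
    h.pair_lc J h1, h.pair_dlt J h1, h.not_rc J (by omega)⟩

end Pool.Agent.Results.MP_776d16_ag.DltPair
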