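import Pool.Agent.MP_776d16_ag.H79.Neg

namespace Pool.Agent.Results.MP_776d16_ag.LcPair

open Pool.Agent.MP_776d16_ag.H55 Pool.Agent.MP_776d16_ag.H79

theorem result (n : ℕ) (hn : 3 ≤ n) :
    ∃ (N : ℕ) (K : Type) (_ : Field K) (_ : Algebra ℂ K) (ξ : Fin (N + 1) → K)
      (D : Finset (ValuationSubring K)) (P : FanoPair n ξ D),
      D.card = 1 ∧ P.IsLC ∧ ¬ LogRC (var ξ) (supp ξ D) ∧ ∃ a b : Fin (N + 1),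
        (∃ p ∈ var ξ \ supp ξ D, ∃ q ∈ var ξ \ supp ξ D,
          p.rep a * q.rep b ≠ p.rep b * q.rep a) ∧
        ∀ p q : PP N, p.rep a * q.rep b ≠ p.rep b * q.rep a →
          ¬ ∃ Γ, IsRationalCurve Γ ∧ Γ ⊆ var ξ ∧ p ∈ Γ ∧ q ∈ Γ := by
  obtain ⟨m, rfl⟩ := Nat.exists_eq_add_of_le' hn
  obtain ⟨K, _, _, ξ, H, P, h1, a, b, ⟨p, hp, q, hq, h2⟩, h3⟩ := cone_pair m
  refine ⟨m + 4, K, _, _, ξ, {H}, P, rfl, h1, fun h4 => ?_, a, b, ⟨p, hp, q, hq, h2⟩, h3⟩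
  obtain ⟨Γ, g1, g2, g3, g4, -⟩ := h4 p hp.1 q hq
  exact h3 p q h2 ⟨Γ, g1, g2, g3, g4⟩

end Pool.Agent.Results.MP_776d16_ag.LcPair
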