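import Pool.Agent.MP_776d16_ag.H7W.Sec

namespace Pool.Agent.Results.MP_776d16_ag.WeightedCI

open MvPolynomial Pool.Agent.MP_776d16_ag.H34

theorem result (n c : ℕ) (w : Fin n → ℕ) (d : Fin (c + 1) → ℕ)
    (G : Fin (c + 1) → MvPolynomial (Fin n) ℂ) (hw : ∀ i, 0 < w i) (hd : ∀ j, 0 < d j)
    (hG : ∀ j, (G j).IsWeightedHomogeneous w (d j))
    (hJ : ∀ v : Fin n → ℂ, v ≠ 0 → (∀ j, eval v (G j) = 0) →
      LinearIndependent ℂ fun j i => eval v (pderiv i (G j)))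
    (hF : ∑ j, d j < ∑ i, w i) :
    LogRC w {x | ∃ v hv, x = WP.mk w v hv ∧ ∀ j, j ≠ 0 → eval v (G j) = 0}
      {x | ∃ v hv, x = WP.mk w v hv ∧ ∀ j, eval v (G j) = 0} :=
  Pool.Agent.MP_776d16_ag.H7W.sec n c w d G hw hd hG hJ hF

end Pool.Agent.Results.MP_776d16_ag.WeightedCI
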